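import Pool.Agent.Helper31.BQ.Stmts

/-!
# Row B1: up to `ε` the limit map is Baire-one
-/

set_option autoImplicit false

namespace Pool.Agent.Helper91.BQ

open Filter Topology Pool.Agent.Helper31.BQ

universe u

theorem le_norm_mkQ {E : Type*} [NormedAddCommGroup E] [NormedSpace ℝ E] (M : Submodule ℝ E)
    (x : E) (c : ℝ) (h : ∀ y : E, x - y ∈ M → c ≤ ‖y‖) : c ≤ ‖M.mkQ x‖ := by
  by_contra hc
  push Not at hc
  obtain ⟨y, hy1, hy2⟩ := Submodule.Quotient.norm_mk_lt (S := M) (M.mkQ x)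
    (ε := c - ‖M.mkQ x‖) (by linarith)
  have h1 : x - y ∈ M := by
    rw [← Submodule.Quotient.eq]
    exact hy1.symm
  have h2 := h y h1
  linarith

theorem norm_mkQ_le {E : Type*} [NormedAddCommGroup E] [NormedSpace ℝ E] (M : Submodule ℝ E)
    (x : E) : ‖M.mkQ x‖ ≤ ‖x‖ := Submodule.Quotient.norm_mk_le M x

theorem tend_norm {E : Type*} [NormedAddCommGroup E] [NormedSpace ℝ E] {M : ℕ → Submodule ℝ E}
    (hM : Antitone M) (hP : PP E M) (y : E) :
    Tendsto (fun n => ‖(M n).mkQ y‖) atTop (𝓝 ‖y‖) := by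
  rw [Metric.tendsto_atTop]
  intro ε hε
  obtain ⟨n0, h0⟩ := hP.2.2.1 y (ε / 2) (by linarith)
  refine ⟨n0, fun n hn => ?_⟩
  have h1 : ‖y‖ - ε / 2 ≤ ‖(M n).mkQ y‖ :=
    le_norm_mkQ (M n) y _ (fun z hz => h0 z (hM hn hz))
  have h2 := norm_mkQ_le (M n) y
  rw [Real.dist_eq, abs_lt]
  constructor <;> linarith

/-- the weight as a function of the distance -/
noncomputable def uu (e t : ℝ) : ℝ := min 1 (max 0 (2 - t / e))

theorem uu_nonneg (e t : ℝ) : 0 ≤ uu e t := le_min zero_le_one (le_max_left _ _)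

theorem uu_le (e t : ℝ) : uu e t ≤ 1 := min_le_left _ _

theorem uu_one {e t : ℝ} (he : 0 < e) (h : t ≤ e) : uu e t = 1 := by
  have h1 : t / e ≤ 1 := (div_le_one he).2 h
  unfold uu
  rw [max_eq_right (by linarith), min_eq_left (by linarith)]

theorem uu_zero {e t : ℝ} (he : 0 < e) (h : 2 * e ≤ t) : uu e t = 0 := by
  have h1 : 2 ≤ t / e := (le_div_iff₀ he).2 h
  unfold uu
  rw [max_eq_left (by linarith), min_eq_right zero_le_one]

theorem uu_cont (e : ℝ) : Continuous (uu e) := by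
  unfold uu
  fun_prop

/-- the weights -/
noncomputable def ww (a : ℕ → ℝ) (k : ℕ) : ℝ := a k * ∏ i ∈ Finset.range k, (1 - a i)

theorem ww_sum (a : ℕ → ℝ) (n : ℕ) :
    ∑ k ∈ Finset.range n, ww a k = 1 - ∏ i ∈ Finset.range n, (1 - a i) := by
  induction n with
  | zero => simp
  | succ n ih =>
    rw [Finset.sum_range_succ, ih, Finset.prod_range_succ, ww]
    ring

theorem ww_nonneg (a : ℕ → ℝ) (h1 : ∀ k, 0 ≤ a k) (h2 : ∀ k, a k ≤ 1) (k : ℕ) : 0 ≤ ww a k :=
  mul_nonneg (h1 k) (Finset.prod_nonneg fun i _ => by linarith [h2 i])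

theorem ww_zero (a : ℕ → ℝ) {K k : ℕ} (h : a K = 1) (hk : K < k) : ww a k = 0 := by
  unfold ww
  rw [Finset.prod_eq_zero (Finset.mem_range.2 hk) (by rw [h, sub_self]), mul_zero]

theorem st_B1 : ST_B1.{u} := by
  intro E _ _ _ M hM hP f hf ε hε
  set x : ℕ → E := TopologicalSpace.denseSeq E with hx
  set e : ℝ := ε / 2 with he
  have he0 : 0 < e := by
    rw [he]
    linarith
  -- the distances
  have hd : ∀ (φ : XX hM) (k : ℕ),
      Tendsto (fun n => ‖(φ : ∀ n, E ⧸ M n) n - (M n).mkQ (x k)‖) atTop (𝓝 ‖f φ - x k‖) := by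
    intro φ k
    have h1 := tend_norm hM hP (f φ - x k)
    have h2 : Tendsto (fun n => ‖(M n).mkQ (f φ) - (φ : ∀ n, E ⧸ M n) n‖) atTop (𝓝 0) := hf φ
    have h3 : Tendsto (fun n => ‖(M n).mkQ (f φ - x k)‖ -
        ‖(M n).mkQ (f φ) - (φ : ∀ n, E ⧸ M n) n‖) atTop (𝓝 ‖f φ - x k‖) := by
      have := h1.sub h2
      rwa [sub_zero] at this
    have h4 : Tendsto (fun n => ‖(M n).mkQ (f φ - x k)‖ +
        ‖(M n).mkQ (f φ) - (φ : ∀ n, E ⧸ M n) n‖) atTop (𝓝 ‖f φ - x k‖) := by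
      have := h1.add h2
      rwa [add_zero] at this
    refine tendsto_of_tendsto_of_tendsto_of_le_of_le h3 h4 (fun n => ?_) (fun n => ?_)
    · have h5 : (M n).mkQ (f φ - x k) = ((M n).mkQ (f φ) - (φ : ∀ n, E ⧸ M n) n) +
          ((φ : ∀ n, E ⧸ M n) n - (M n).mkQ (x k)) := by
        rw [map_sub]
        abel
      have h6 := norm_add_le ((M n).mkQ (f φ) - (φ : ∀ n, E ⧸ M n) n)
        ((φ : ∀ n, E ⧸ M n) n - (M n).mkQ (x k))
      rw [← h5] at h6
      show ‖(M n).mkQ (f φ - x k)‖ - ‖(M n).mkQ (f φ) - (φ : ∀ n, E ⧸ M n) n‖ ≤ _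
      linarith
    · have h5 : (φ : ∀ n, E ⧸ M n) n - (M n).mkQ (x k) = (M n).mkQ (f φ - x k) -
          ((M n).mkQ (f φ) - (φ : ∀ n, E ⧸ M n) n) := by
        rw [map_sub]
        abel
      have h6 := norm_sub_le ((M n).mkQ (f φ - x k)) ((M n).mkQ (f φ) - (φ : ∀ n, E ⧸ M n) n)
      rw [← h5] at h6
      exact h6
  -- the nearest points
  have hK : ∀ φ : XX hM, ∃ K : ℕ, ‖f φ - x K‖ < e := by
    intro φ
    obtain ⟨y, hy, k, rfl⟩ := (TopologicalSpace.denseRange_denseSeq E).exists_dist_lt (f φ) he0 |>.imp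
      fun k hk => (⟨hk, k, rfl⟩ : _ ∧ ∃ k', k' = k)
    · exact ⟨_, by rwa [dist_eq_norm] at hy⟩
  choose K hKlt using hK
  set U : XX hM → ℕ → ℝ := fun φ k => uu e ‖f φ - x k‖ with hU
  set un : ℕ → XX hM → ℕ → ℝ := fun n φ k =>
    uu e ‖(φ : ∀ n, E ⧸ M n) n - (M n).mkQ (x k)‖ with hun
  have hut : ∀ φ k, Tendsto (fun n => un n φ k) atTop (𝓝 (U φ k)) := fun φ k =>
    ((uu_cont e).tendsto _).comp (hd φ k)
  have hwt : ∀ φ k, Tendsto (fun n => ww (un n φ) k) atTop (𝓝 (ww (U φ) k)) := by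
    intro φ k
    unfold ww
    exact (hut φ k).mul (tendsto_finset_prod _ fun i _ => tendsto_const_nhds.sub (hut φ i))
  refine ⟨fun φ => ∑ k ∈ Finset.range (K φ + 1), ww (U φ) k • x k,
    ⟨fun n φ => ∑ k ∈ Finset.range n, ww (un n φ) k • x k, fun n => ?_, fun φ => ?_⟩,
    fun φ => ?_⟩
  · have hc : ∀ k, Continuous fun φ : XX hM => un n φ k := by
      intro k
      exact (uu_cont e).comp ((((continuous_apply n).comp continuous_subtype_val).sub
        continuous_const).norm)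
    refine continuous_finset_sum _ fun k _ => Continuous.smul ?_ continuous_const
    unfold ww
    exact (hc k).mul (continuous_finset_prod _ fun i _ => continuous_const.sub (hc i))
  · have h1 : ∀ᶠ n in atTop, ‖(φ : ∀ n, E ⧸ M n) n - (M n).mkQ (x (K φ))‖ < e :=
      (hd φ (K φ)).eventually_lt_const (hKlt φ)
    have h2 : Tendsto (fun n => ∑ k ∈ Finset.range (K φ + 1), ww (un n φ) k • x k) atTop
        (𝓝 (∑ k ∈ Finset.range (K φ + 1), ww (U φ) k • x k)) :=
      tendsto_finset_sum _ fun k _ => (hwt φ k).smul_const _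
    refine h2.congr' ?_
    filter_upwards [h1, eventually_ge_atTop (K φ + 1)] with n hn hn2
    refine Finset.sum_subset (Finset.range_subset_range.2 hn2) fun k _ hk => ?_
    rw [Finset.mem_range, not_lt] at hk
    have h3 : un n φ (K φ) = 1 := uu_one he0 hn.le
    rw [ww_zero (un n φ) h3 (by omega), zero_smul]
  · have h1 : ∑ k ∈ Finset.range (K φ + 1), ww (U φ) k = 1 := by
      rw [ww_sum, Finset.prod_eq_zero (Finset.mem_range.2 (Nat.lt_succ_self (K φ)))
        (by rw [show U φ (K φ) = 1 from uu_one he0 (hKlt φ).le, sub_self]), sub_zero]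
    have h2 : (∑ k ∈ Finset.range (K φ + 1), ww (U φ) k • x k) - f φ =
        ∑ k ∈ Finset.range (K φ + 1), ww (U φ) k • (x k - f φ) := by
      simp only [smul_sub]
      rw [Finset.sum_sub_distrib, ← Finset.sum_smul, h1, one_smul]
    show ‖(∑ k ∈ Finset.range (K φ + 1), ww (U φ) k • x k) - f φ‖ ≤ ε
    rw [h2]
    calc ‖∑ k ∈ Finset.range (K φ + 1), ww (U φ) k • (x k - f φ)‖ ≤
          ∑ k ∈ Finset.range (K φ + 1), ‖ww (U φ) k • (x k - f φ)‖ := norm_sum_le _ _
      _ ≤ ∑ k ∈ Finset.range (K φ + 1), ww (U φ) k * ε := by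
        refine Finset.sum_le_sum fun k _ => ?_
        have h3 := ww_nonneg (U φ) (fun k => uu_nonneg _ _) (fun k => uu_le _ _) k
        rw [norm_smul, Real.norm_eq_abs, abs_of_nonneg h3]
        by_cases h4 : ‖x k - f φ‖ ≤ ε
        · exact mul_le_mul_of_nonneg_left h4 h3
        · have h5 : U φ k = 0 := uu_zero he0 (by
            rw [norm_sub_rev]
            rw [he]
            linarith)
          rw [ww, h5]
          simp
      _ = ε := by rw [← Finset.sum_mul, h1, one_mul]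

end Pool.Agent.Helper91.BQ
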