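import Pool.Agent.Helper31.BQ.Stmts

/-!
# Row SD: a normed space with separable dual is separable
-/

set_option autoImplicit false

namespace Pool.Agent.Helper91.BQ

open Filter Topology Pool.Agent.Helper31.BQ

universe u

theorem st_SD : ST_SD.{u} := by
  intro 𝕜 _ D _ _ hsep
  set x : ℕ → StrongDual 𝕜 D := TopologicalSpace.denseSeq (StrongDual 𝕜 D) with hx
  have hd : ∀ k, ∃ d : D, ‖d‖ ≤ 1 ∧ ‖x k‖ / 2 ≤ ‖x k d‖ := by
    intro k
    rcases (norm_nonneg (x k)).eq_or_lt with h0 | h0
    · exact ⟨0, by simp, by rw [← h0]; simp⟩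
    · obtain ⟨d, h1, h2⟩ := (x k).exists_lt_apply_of_lt_opNorm (r := ‖x k‖ / 2) (by linarith)
      exact ⟨d, h1.le, h2.le⟩
  choose d hd1 hd2 using hd
  set S : Submodule 𝕜 D := Submodule.span 𝕜 (Set.range d) with hS
  have hcl : IsClosed (S.topologicalClosure : Set D) := S.isClosed_topologicalClosure
  have htop : S.topologicalClosure = ⊤ := by
    by_contra hne
    obtain ⟨y, hy⟩ : ∃ y : D, y ∉ S.topologicalClosure := by
      by_contra hcon
      push Not at hcon
      exact hne (eq_top_iff.2 fun z _ => hcon z)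
    have hy0 : (Submodule.Quotient.mk y : D ⧸ S.topologicalClosure) ≠ 0 := by
      rw [Ne, Submodule.Quotient.mk_eq_zero]
      exact hy
    have := hcl
    have hy1 : ‖(Submodule.Quotient.mk y : D ⧸ S.topologicalClosure)‖ ≠ 0 := norm_ne_zero_iff.2 hy0
    obtain ⟨g, hg1, hg2⟩ := exists_dual_vector 𝕜
      (Submodule.Quotient.mk y : D ⧸ S.topologicalClosure) hy1
    set f : StrongDual 𝕜 D := g.comp S.topologicalClosure.mkQL with hf
    have hfy : f y ≠ 0 := by
      show g (Submodule.Quotient.mk y) ≠ 0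
      rw [hg2]
      exact RCLike.ofReal_ne_zero.2 hy1
    have hfS : ∀ k, f (d k) = 0 := by
      intro k
      show g (Submodule.Quotient.mk (d k)) = 0
      have h1 : (Submodule.Quotient.mk (d k) : D ⧸ S.topologicalClosure) = 0 := by
        rw [Submodule.Quotient.mk_eq_zero]
        exact S.le_topologicalClosure (Submodule.subset_span ⟨k, rfl⟩)
      rw [h1, map_zero]
    have hf0 : 0 < ‖f‖ := by
      rw [norm_pos_iff]
      intro h
      exact hfy (by rw [h]; rfl)
    obtain ⟨k, hk⟩ := (TopologicalSpace.denseRange_denseSeq (StrongDual 𝕜 D)).exists_dist_lt f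
      (ε := ‖f‖ / 4) (by linarith)
    rw [dist_eq_norm] at hk
    have h1 : ‖f‖ ≤ ‖f - x k‖ + ‖x k‖ := by
      have := norm_add_le (f - x k) (x k)
      rwa [sub_add_cancel] at this
    have h2 : ‖x k (d k)‖ ≤ ‖f - x k‖ := by
      have h3 : x k (d k) = -((f - x k) (d k)) := by
        rw [ContinuousLinearMap.sub_apply, hfS k]
        ring
      rw [h3, norm_neg]
      refine ((f - x k).le_opNorm (d k)).trans ?_
      calc ‖f - x k‖ * ‖d k‖ ≤ ‖f - x k‖ * 1 :=
            mul_le_mul_of_nonneg_left (hd1 k) (norm_nonneg _)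
        _ = ‖f - x k‖ := mul_one _
    have h3 := hd2 k
    linarith
  have h1 : TopologicalSpace.IsSeparable (closure (S : Set D)) :=
    ((Set.countable_range d).isSeparable.span (R := 𝕜)).closure
  have h2 : closure (S : Set D) = Set.univ := by
    rw [← Submodule.topologicalClosure_coe, htop]
    rfl
  rw [h2] at h1
  exact TopologicalSpace.isSeparable_univ_iff.1 h1

end Pool.Agent.Helper91.BQ
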